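import Pool.Agent.H17.CI.TargetsG

/-!
# HA: products of linear forms have no infinitesimal automorphisms
-/

set_option autoImplicit false

namespace Pool.Agent.H45.CI

open MvPolynomial SC Pool.Agent.H27.LV Pool.Agent.H17.VG Pool.Agent.H17.CI

/-- the derivation of a matrix -/
noncomputable def dA {n : ℕ} (A : Matrix (Fin (n + 1)) (Fin (n + 1)) ℚ) :
    Derivation ℚ (MvPolynomial (Fin (n + 1)) ℚ) (MvPolynomial (Fin (n + 1)) ℚ) :=
  ∑ a, (∑ b, C (A a b) * X b : MvPolynomial (Fin (n + 1)) ℚ) • pderiv a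

theorem dA_apply {n : ℕ} (A : Matrix (Fin (n + 1)) (Fin (n + 1)) ℚ)
    (P : MvPolynomial (Fin (n + 1)) ℚ) :
    dA A P = ∑ a, (∑ b, C (A a b) * X b) * pderiv a P := by
  have h : ∀ s : Finset (Fin (n + 1)),
      (∑ a ∈ s, (∑ b, C (A a b) * X b : MvPolynomial (Fin (n + 1)) ℚ) • pderiv a :
        Derivation ℚ (MvPolynomial (Fin (n + 1)) ℚ) (MvPolynomial (Fin (n + 1)) ℚ)) P =
      ∑ a ∈ s, (∑ b, C (A a b) * X b) * pderiv a P := by
    classical
    intro s
    induction s using Finset.induction_on with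
    | empty => simp
    | insert a s ha ih =>
      rw [Finset.sum_insert ha, Finset.sum_insert ha, Derivation.add_apply, ih]
      rfl
  exact h Finset.univ

theorem dA_X {n : ℕ} (A : Matrix (Fin (n + 1)) (Fin (n + 1)) ℚ) (q : Fin (n + 1)) :
    dA A (X q) = ∑ b, C (A q b) * X b := by
  rw [dA_apply, Finset.sum_eq_single q]
  · rw [pderiv_X_self, mul_one]
  · intro b _ hb
    rw [pderiv_X_of_ne hb.symm, mul_zero]
  · intro h
    exact absurd (Finset.mem_univ _) h

/-- the linear forms -/
noncomputable def Lf (n m : ℕ) : MvPolynomial (Fin (n + 2)) ℚ :=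
  if h : m < n + 1 then X (Fin.succ ⟨m, h⟩) else
    if m = n + 1 then X 0 + ∑ q : Fin (n + 1), X q.succ else X 1 + C (m : ℚ) * X 0

theorem Lf_homog (n m : ℕ) : (Lf n m).IsHomogeneous 1 := by
  unfold Lf
  split_ifs
  · exact isHomogeneous_X _ _
  · exact (isHomogeneous_X _ _).add (IsHomogeneous.sum _ _ _ fun q _ => isHomogeneous_X _ _)
  · refine (isHomogeneous_X _ _).add ?_
    have := (isHomogeneous_C (Fin (n + 2)) (m : ℚ)).mul (isHomogeneous_X ℚ (0 : Fin (n + 2)))
    simpa using this

theorem eval_Lf_pos {n : ℕ} (q : Fin (n + 1)) {m : ℕ} (hm : m ≠ q.1) :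
    0 < eval (fun j : Fin (n + 2) => if j = q.succ then (0 : ℚ) else 1) (Lf n m) := by
  unfold Lf
  have h0 : (0 : Fin (n + 2)) ≠ q.succ := (Fin.succ_ne_zero q).symm
  split_ifs with h h'
  · rw [eval_X]
    have : (Fin.succ ⟨m, h⟩ : Fin (n + 2)) ≠ q.succ := by
      intro h1
      have := Fin.succ_injective _ h1
      exact hm (congrArg Fin.val this)
    rw [if_neg this]
    norm_num
  · rw [map_add, map_sum, eval_X, if_neg h0]
    have : 0 ≤ ∑ x : Fin (n + 1), eval (fun j : Fin (n + 2) => if j = q.succ then (0 : ℚ) else 1)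
        (X x.succ) := by
      refine Finset.sum_nonneg fun x _ => ?_
      rw [eval_X]
      split_ifs <;> norm_num
    linarith
  · rw [map_add, map_mul, eval_C, eval_X, eval_X, if_neg h0]
    have h1 : (0 : ℚ) < m := by
      have : 0 < m := by omega
      exact_mod_cast this
    have h2 : (0 : ℚ) ≤ if (1 : Fin (n + 2)) = q.succ then (0 : ℚ) else 1 := by
      split_ifs <;> norm_num
    linarith

theorem eval_Lf_S {n : ℕ} {m : ℕ} (hm : m ≠ n + 1) :
    eval (fun j : Fin (n + 2) => if j = 0 then -((n : ℚ) + 1) else 1) (Lf n m) ≠ 0 := by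
  unfold Lf
  split_ifs with h
  · rw [eval_X, if_neg (Fin.succ_ne_zero _)]
    norm_num
  · rw [map_add, map_mul, eval_C, eval_X, eval_X, if_pos rfl, if_neg (by simp)]
    have h1 : (2 : ℚ) ≤ m := by
      have : 2 ≤ m := by omega
      exact_mod_cast this
    have h2 : (0 : ℚ) ≤ n := Nat.cast_nonneg n
    intro h3
    nlinarith

/-- the main argument -/
theorem main_arg {n : ℕ} (A : Matrix (Fin (n + 2)) (Fin (n + 2)) ℚ)
    {σ : Type} [Fintype σ] [DecidableEq σ] (L : σ → MvPolynomial (Fin (n + 2)) ℚ) (l : ℚ)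
    (h : dA A (∏ j, L j) + C l * ∏ j, L j = 0) (j0 : σ) (y : Fin (n + 2) → MvPolynomial (Fin (n + 2)) ℚ)
    (h0 : aeval y (L j0) = 0) (z : Fin (n + 2) → ℚ) (hz : ∀ i, eval z (y i) = z i)
    (hne : ∀ j, j ≠ j0 → eval z (L j) ≠ 0) : aeval y (dA A (L j0)) = 0 := by
  have h1 : ∏ j, L j = L j0 * ∏ j ∈ Finset.univ.erase j0, L j :=
    (Finset.mul_prod_erase _ _ (Finset.mem_univ _)).symm
  have h2 := congrArg (aeval y) h
  rw [h1, Derivation.leibniz, map_add, map_add, map_mul, map_mul, h0, zero_mul, mul_zero,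
    add_zero, smul_eq_mul, smul_eq_mul, map_mul, map_mul, h0, zero_mul, zero_add, map_zero] at h2
  rcases mul_eq_zero.1 h2 with h3 | h3
  · exfalso
    have h4 : ∀ P : MvPolynomial (Fin (n + 2)) ℚ, eval z (aeval y P) = eval z P := by
      intro P
      induction P using MvPolynomial.induction_on with
      | C a => simp
      | add p q hp hq => rw [map_add, map_add, map_add, hp, hq]
      | mul_X p i hp => rw [map_mul, map_mul, map_mul, hp, aeval_X, hz, eval_X]
    have h5 := congrArg (eval z) h3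
    rw [h4, map_prod, map_zero, Finset.prod_eq_zero_iff] at h5
    obtain ⟨j, hj, hj0⟩ := h5
    exact hne j (Finset.mem_erase.1 hj).1 hj0
  · exact h3

theorem exists_coeff {n : ℕ} {ι : Type} (e : ι → ℕ) (F : ι → MvPolynomial (Fin (n + 1)) ℚ)
    (hF : ∀ i, (F i).IsHomogeneous (e i + 1)) :
    ∃ c : (Σ i, Mon (n + 1) (e i + 1)) → ℚ, ∀ i, frmT (e := fun i => e i + 1) c i = F i := by
  refine ⟨fun M => coeff (fs M.2.1) (F M.1), fun i => ?_⟩
  have h := frm_coeff (hF i)
  exact h

theorem pf_HA : T_HA := by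
  classical
  intro n ι _ e hN
  rcases n with _ | n
  · obtain ⟨c, hc⟩ := exists_coeff e (fun i => (X 0 : MvPolynomial (Fin (0 + 1)) ℚ) ^ (e i + 1))
      (fun i => by
        have := (isHomogeneous_X ℚ (0 : Fin (0 + 1))).pow (e i + 1)
        simpa using this)
    refine ⟨c, fun A l hA h => ?_⟩
    have hA0 : A = 0 := by
      ext a b
      have : a = 0 := Fin.ext (by omega)
      rw [this, hA b]
      rfl
    refine ⟨hA0, ?_⟩
    funext i
    have h1 := h i
    rw [hA0, hc i] at h1
    simp only [Matrix.zero_apply, map_zero, zero_mul, Finset.sum_const_zero, zero_add,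
      mul_eq_zero] at h1
    rcases h1 with h1 | h1
    · exact (C_eq_zero.1 h1)
    · exact absurd h1 (pow_ne_zero _ (X_ne_zero _))
  obtain ⟨N, hNd⟩ : ∃ N, N = ∑ i, (e i + 1) := ⟨_, rfl⟩
  have hcard : Fintype.card (Σ i, Fin (e i + 1)) = N := by
    rw [Fintype.card_sigma, hNd]
    simp
  obtain ⟨E, -⟩ : ∃ E : (Σ i, Fin (e i + 1)) ≃ Fin N, True :=
    ⟨Fintype.equivFinOfCardEq hcard, trivial⟩
  obtain ⟨F, hF⟩ : ∃ F : ι → MvPolynomial (Fin (n + 2)) ℚ,
      F = fun i => ∏ j : Fin (e i + 1), Lf n (E ⟨i, j⟩).1 := ⟨_, rfl⟩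
  have hFh : ∀ i, (F i).IsHomogeneous (e i + 1) := by
    intro i
    rw [hF]
    have := IsHomogeneous.prod (Finset.univ : Finset (Fin (e i + 1)))
      (fun j => Lf n (E ⟨i, j⟩).1) (fun _ => 1) (fun j _ => Lf_homog n _)
    simpa using this
  obtain ⟨c, hc⟩ := exists_coeff e F hFh
  refine ⟨c, fun A l hA h => ?_⟩
  have hN' : n + 2 ≤ N := by rw [hNd]; exact hN
  -- the equations
  have heq : ∀ i, dA A (∏ j : Fin (e i + 1), Lf n (E ⟨i, j⟩).1) +
      C (l i) * ∏ j : Fin (e i + 1), Lf n (E ⟨i, j⟩).1 = 0 := by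
    intro i
    have h1 := h i
    rw [hc i, hF] at h1
    rw [dA_apply]
    exact h1
  -- the factors
  have hfac : ∀ (m : ℕ), m < n + 2 → ∀ (y : Fin (n + 2) → MvPolynomial (Fin (n + 2)) ℚ)
      (z : Fin (n + 2) → ℚ), aeval y (Lf n m) = 0 → (∀ i, eval z (y i) = z i) →
      (∀ m', m' ≠ m → eval z (Lf n m') ≠ 0) → aeval y (dA A (Lf n m)) = 0 := by
    intro m hm y z h0 hz hne
    obtain ⟨⟨i, j⟩, hij⟩ := E.surjective ⟨m, by omega⟩
    have h1 := main_arg A (fun j : Fin (e i + 1) => Lf n (E ⟨i, j⟩).1) (l i) (heq i) j y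
      (by simp only [hij]; exact h0) z hz (by
        intro j' hj'
        refine hne _ fun h2 => hj' ?_
        have h3 : E ⟨i, j'⟩ = E ⟨i, j⟩ := by
          rw [hij]
          exact Fin.ext h2
        have h4 := E.injective h3
        simpa using h4)
    simp only [hij] at h1
    exact h1
  have heval : ∀ (y : Fin (n + 2) → MvPolynomial (Fin (n + 2)) ℚ) (w : Fin (n + 2) → ℚ)
      (P : MvPolynomial (Fin (n + 2)) ℚ),
      eval w (aeval y P) = eval (fun i => eval w (y i)) P := by
    intro y w P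
    induction P using MvPolynomial.induction_on with
    | C a => simp
    | add p q hp hq => rw [map_add, map_add, map_add, hp, hq]
    | mul_X p i hp => rw [map_mul, map_mul, map_mul, hp, aeval_X, eval_X]
  -- off the diagonal
  have hoff : ∀ (q : Fin (n + 1)) (b : Fin (n + 2)), b ≠ q.succ → A q.succ b = 0 := by
    intro q b hb
    have hLq : Lf n q.1 = X q.succ := by
      unfold Lf
      rw [dif_pos q.2]
    have h1 := hfac q.1 (by omega) (fun i => if i = q.succ then 0 else X i)
      (fun j => if j = q.succ then 0 else 1) (by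
        rw [hLq, aeval_X, if_pos rfl]) (by
        intro i
        split_ifs
        · simp
        · rw [eval_X]; simp [*]) (fun m' hm' => (eval_Lf_pos q hm').ne')
    rw [hLq, dA_X] at h1
    have h2 := congrArg (eval (Pi.single b (1 : ℚ))) h1
    rw [heval, map_zero, map_sum, Finset.sum_eq_single b] at h2
    · rw [map_mul, eval_C, eval_X, if_neg hb, eval_X, Pi.single_eq_same, mul_one] at h2
      exact h2
    · intro b' _ hb'
      rw [map_mul, eval_X]
      split_ifs
      · simp
      · rw [eval_X, Pi.single_eq_of_ne hb', mul_zero]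
    · intro h3
      exact absurd (Finset.mem_univ _) h3
  -- the diagonal
  have hdiag : ∀ q : Fin (n + 1), A q.succ q.succ = 0 := by
    intro q
    have hLS : Lf n (n + 1) = X 0 + ∑ q : Fin (n + 1), X q.succ := by
      unfold Lf
      rw [dif_neg (by omega), if_pos rfl]
    have h1 := hfac (n + 1) (by omega)
      (fun i => if i = 0 then -∑ q : Fin (n + 1), X q.succ else X i)
      (fun j => if j = 0 then -((n : ℚ) + 1) else 1) (by
        rw [hLS, map_add, map_sum, aeval_X, if_pos rfl]
        have : ∀ q : Fin (n + 1), aeval (fun i : Fin (n + 2) => if i = 0 then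
            -∑ q : Fin (n + 1), X q.succ else (X i : MvPolynomial (Fin (n + 2)) ℚ))
            (X q.succ : MvPolynomial (Fin (n + 2)) ℚ) = X q.succ := by
          intro q
          rw [aeval_X, if_neg (Fin.succ_ne_zero q)]
        simp only [this]
        rw [neg_add_cancel]) (by
        intro i
        split_ifs with hi
        · rw [map_neg, map_sum]
          simp [Fin.succ_ne_zero]
        · rw [eval_X, if_neg hi]) (fun m' hm' => eval_Lf_S hm')
    rw [hLS, map_add, map_sum] at h1
    simp only [dA_X] at h1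
    have h2 := congrArg (eval (Pi.single q.succ (1 : ℚ))) h1
    rw [heval, map_zero, map_add] at h2
    have h3 : eval (fun i => eval (Pi.single q.succ (1 : ℚ))
        (if i = 0 then -∑ q : Fin (n + 1), X q.succ else X i : MvPolynomial (Fin (n + 2)) ℚ))
        (∑ b, C (A 0 b) * X b) = 0 := by
      simp [hA]
    rw [h3, zero_add, map_sum, Finset.sum_eq_single q] at h2
    · rw [map_sum, Finset.sum_eq_single q.succ] at h2
      · rw [map_mul, eval_C, eval_X, if_neg (Fin.succ_ne_zero q), eval_X, Pi.single_eq_same,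
          mul_one] at h2
        exact h2
      · intro b _ hb
        rw [hoff q b hb]
        simp
      · intro h4
        exact absurd (Finset.mem_univ _) h4
    · intro q' _ hq'
      rw [map_sum]
      refine Finset.sum_eq_zero fun b _ => ?_
      by_cases hb : b = q'.succ
      · rw [map_mul, eval_X, hb, if_neg (Fin.succ_ne_zero _), eval_X, Pi.single_eq_of_ne, mul_zero]
        intro h5
        exact hq' (Fin.succ_injective _ h5)
      · rw [hoff q' b hb]
        simp
    · intro h4
      exact absurd (Finset.mem_univ _) h4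
  have hA0 : A = 0 := by
    ext a b
    rcases Fin.eq_zero_or_eq_succ a with rfl | ⟨q, rfl⟩
    · rw [hA b]; rfl
    · by_cases hb : b = q.succ
      · rw [hb, hdiag q]; rfl
      · rw [hoff q b hb]; rfl
  refine ⟨hA0, ?_⟩
  funext i
  have h1 := heq i
  rw [dA_apply, hA0] at h1
  simp only [Matrix.zero_apply, map_zero, zero_mul, Finset.sum_const_zero, zero_add,
    mul_eq_zero] at h1
  rcases h1 with h1 | h1
  · exact (C_eq_zero.1 h1)
  · exfalso
    rw [Finset.prod_eq_zero_iff] at h1
    obtain ⟨j, -, hj⟩ := h1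
    by_cases hm : (E ⟨i, j⟩).1 = n + 1
    · have h2 := eval_Lf_pos (n := n) (0 : Fin (n + 1)) (m := (E ⟨i, j⟩).1) (by
        rw [hm]; simp)
      rw [hj, map_zero] at h2
      exact lt_irrefl _ h2
    · have h2 := eval_Lf_S (n := n) hm
      rw [hj, map_zero] at h2
      exact h2 rfl

end Pool.Agent.H45.CI
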