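import Pool.Agent.H17.CI.TargetsX

/-!
# NST: Nullstellensatz
-/

set_option autoImplicit false

namespace Pool.Agent.H45.CI

open MvPolynomial SC Pool.Agent.H27.LV Pool.Agent.H17.VG Pool.Agent.H17.CI

theorem pf_NST : T_NST := by
  intro k _ _ n Ω _ _ x0 E g hE hg
  by_contra hcon
  push Not at hcon
  obtain ⟨J, hJ⟩ : ∃ J : Ideal (MvPolynomial (Fin n) k), J = RingHom.ker (aeval (R := k) x0) :=
    ⟨_, rfl⟩
  have hprime : J.IsPrime := by
    rw [hJ]
    exact RingHom.ker_isPrime _
  have hvan : g ∈ vanishingIdeal k (zeroLocus k J) := by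
    rw [mem_vanishingIdeal_iff]
    intro x hx
    rw [aeval_eq_eval]
    refine hcon x fun f hf => ?_
    have h1 : f ∈ J := by
      rw [hJ, RingHom.mem_ker]
      exact hE f hf
    have := hx f h1
    rwa [aeval_eq_eval] at this
  rw [IsPrime.vanishingIdeal_zeroLocus J, hJ, RingHom.mem_ker] at hvan
  exact hg hvan

end Pool.Agent.H45.CI
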