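import Pool.Agent.H17.CI.TargetsX

/-!
# NZT: a point with many independent coordinates is on few of the hypersurfaces
-/

set_option autoImplicit false

namespace Pool.Agent.H45.CI

open MvPolynomial SC Pool.Agent.H27.LV Pool.Agent.H17.VG Pool.Agent.H17.CI

theorem der_aevalZ {L : Type} [Field L] {m : ℕ} (D : Derivation ℤ L L)
    (z : Fin m → L) (p : MvPolynomial (Fin m) ℤ) :
    D (aeval z p) = ∑ j, aeval z (pderiv j p) * D (z j) := by
  induction p using MvPolynomial.induction_on with
  | C a => simp
  | add p q hp hq =>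
    simp only [map_add, hp, hq, add_mul, Finset.sum_add_distrib]
  | mul_X p i hp =>
    simp only [map_mul, aeval_X, Derivation.leibniz, hp, smul_eq_mul, pderiv_X, map_add,
      add_mul, Finset.sum_add_distrib, Finset.mul_sum]
    congr 1
    · rw [Finset.sum_eq_single i]
      · simp
      · intro j _ hj
        rw [Pi.single_eq_of_ne hj.symm]
        simp
      · simp
    · refine Finset.sum_congr rfl (fun j _ => ?_)
      ring

/-- a derivation applied to the value of a form -/
theorem der_frm {L : Type} [Field L] {n d : ℕ} (θ : Derivation ℤ L L)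
    (t : Mon (n + 1) d → L) (x : Fin (n + 1) → L) :
    θ (eval x (frm t)) = ∑ f, θ (t f) * mv d x f +
      ∑ j, eval x (pderiv j (frm t)) * θ (x j) := by
  have h1 : ∀ f : Mon (n + 1) d, mv d x f =
      aeval x (monomial (fs f.1) (1 : ℤ) : MvPolynomial (Fin (n + 1)) ℤ) := by
    intro f
    rw [aeval_monomial, map_one, one_mul, Finsupp.prod_fintype]
    · rfl
    · intro i; rw [pow_zero]
  have h2 : ∀ (f : Mon (n + 1) d) (j : Fin (n + 1)),
      eval x (pderiv j (mono L f.1)) =
        aeval x (pderiv j (monomial (fs f.1) (1 : ℤ) : MvPolynomial (Fin (n + 1)) ℤ)) := by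
    intro f j
    rw [mono, pderiv_monomial, pderiv_monomial, aeval_monomial, eval_monomial]
    simp
  rw [eval_frm, map_sum]
  have h3 : ∀ f : Mon (n + 1) d, θ (t f * mv d x f) = θ (t f) * mv d x f +
      t f * ∑ j, eval x (pderiv j (mono L f.1)) * θ (x j) := by
    intro f
    rw [Derivation.leibniz, smul_eq_mul, smul_eq_mul]
    have h4 : θ (mv d x f) = ∑ j, eval x (pderiv j (mono L f.1)) * θ (x j) := by
      rw [h1, der_aevalZ]
      exact Finset.sum_congr rfl fun j _ => by rw [h2]
    rw [h4]
    ring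
  rw [Finset.sum_congr rfl fun f _ => h3 f, Finset.sum_add_distrib]
  congr 1
  simp_rw [Finset.mul_sum]
  rw [Finset.sum_comm]
  refine Finset.sum_congr rfl fun j _ => ?_
  rw [frm, map_sum, map_sum, Finset.sum_mul]
  refine Finset.sum_congr rfl fun f _ => ?_
  rw [pderiv_C_mul, map_mul, eval_C]
  ring

theorem up_frm {k L : Type} [Field k] [Field L] [Algebra k L] {n d : ℕ}
    (t : Mon (n + 1) d → k) : up L (frm t) = frm fun f => algebraMap k L (t f) := by
  rw [up, frm, frm, map_sum]
  refine Finset.sum_congr rfl fun f _ => ?_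
  rw [map_mul, map_C, mono, mono, map_monomial, map_one]

theorem pf_NZT (hXDD : T_XDD) : T_NZT := by
  classical
  intro k L _ _ _ _ n ι _ e c hc x B hx0 hB A hA
  have key : ∀ v : A → L, ∃ w : {a : Fin n // a ∉ B} → L, ∀ i : A,
      ∑ a, eval x (pderiv a.1.succ (upT L (frmT c) i.1)) * w a = v i := by
    intro v
    obtain ⟨θ, hθ1, hθ2⟩ := hXDD k L (Σ i, Mon (n + 1) (e i + 1)) B c
      (fun b => x b.1.succ) hc hB
      (fun M => if h : M.1 ∈ A then (if M.2.1 = Pi.single 0 (e M.1 + 1) then -v ⟨M.1, h⟩ else 0)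
        else 0)
    refine ⟨fun a => θ (x a.1.succ), fun i => ?_⟩
    have h1 : upT L (frmT c) i.1 = frm fun f => algebraMap k L (c ⟨i.1, f⟩) := by
      rw [upT, frmT, up_frm]
    have h2 := der_frm θ (fun f => algebraMap k L (c ⟨i.1, f⟩)) x
    rw [← h1, hA i.1 i.2, map_zero] at h2
    have h3 : ∑ f : Mon (n + 1) (e i.1 + 1), θ (algebraMap k L (c ⟨i.1, f⟩)) *
        mv (e i.1 + 1) x f = -v i := by
      rw [Finset.sum_eq_single (⟨Pi.single 0 (e i.1 + 1), by simp⟩ : Mon (n + 1) (e i.1 + 1))]
      · rw [hθ1]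
        have h4 : mv (e i.1 + 1) x ⟨Pi.single 0 (e i.1 + 1), by simp⟩ = 1 := by
          rw [mv]
          refine Finset.prod_eq_one fun j _ => ?_
          rcases eq_or_ne j 0 with rfl | hj
          · rw [hx0, one_pow]
          · simp [Pi.single_eq_of_ne hj]
        rw [h4, mul_one]
        simp
      · intro f _ hf
        rw [hθ1]
        have h5 : f.1 ≠ Pi.single 0 (e i.1 + 1) := fun h => hf (Subtype.ext h)
        simp only [h5, if_false, dite_eq_ite, ite_self, zero_mul]
      · intro h
        exact absurd (Finset.mem_univ _) h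
    rw [h3] at h2
    have h6 : ∑ j, eval x (pderiv j (upT L (frmT c) i.1)) * θ (x j) =
        ∑ a : {a : Fin n // a ∉ B}, eval x (pderiv a.1.succ (upT L (frmT c) i.1)) *
          θ (x a.1.succ) := by
      rw [Fin.sum_univ_succ, hx0, Derivation.map_one_eq_zero, mul_zero, zero_add]
      rw [← Finset.sum_subtype (Finset.univ.filter fun a : Fin n => a ∉ B) (by simp)
        (fun a => eval x (pderiv a.succ (upT L (frmT c) i.1)) * θ (x a.succ))]
      symm
      refine Finset.sum_subset (Finset.filter_subset _ _) fun a _ ha => ?_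
      have haB : a ∈ B := by
        by_contra h
        exact ha (Finset.mem_filter.2 ⟨Finset.mem_univ _, h⟩)
      rw [hθ2 ⟨a, haB⟩, mul_zero]
    rw [h6] at h2
    linear_combination -h2
  obtain ⟨Φ, hΦ⟩ : ∃ Φ : ({a : Fin n // a ∉ B} → L) →ₗ[L] (A → L),
      Φ = (Matrix.of fun (i : A) (a : {a : Fin n // a ∉ B}) =>
        eval x (pderiv a.1.succ (upT L (frmT c) i.1))).mulVecLin := ⟨_, rfl⟩
  have hsurj : Function.Surjective Φ := by
    intro v
    obtain ⟨w, hw⟩ := key v
    refine ⟨w, ?_⟩
    funext i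
    rw [hΦ, Matrix.mulVecLin_apply]
    simp only [Matrix.mulVec, dotProduct, Matrix.of_apply]
    exact hw i
  have hle := LinearMap.finrank_le_finrank_of_surjective hsurj
  rw [Module.finrank_fintype_fun_eq_card, Module.finrank_fintype_fun_eq_card,
    Fintype.card_coe] at hle
  have hcard : Fintype.card {a : Fin n // a ∉ B} = n - B.card := by
    rw [Fintype.card_subtype_compl, Fintype.card_fin, Fintype.card_coe]
  have hBn : B.card ≤ n := by
    have := B.card_le_univ
    simpa using this
  omega

end Pool.Agent.H45.CI
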